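import Mathlib
import Pool.Agent.Lib.MP_b3a7e3_al.Defs
import Pool.Agent.Lib.MP_b3a7e3_al.Cases

namespace Pool.Agent.Results.MP_b3a7e3_al.CharacterOrders

open Pool.Agent.MP_b3a7e3_al

universe u

theorem result (H HH HHH : Type u) [CStarAlgebra H] [CStarAlgebra HH] [CStarAlgebra HHH]
    (𝔾 : CompactQuantumGroup H HH HHH) (n : ℕ) (u : Matrix (Fin n) (Fin n) H)
    (hu : IsCorep 𝔾 u) (hne : u ≠ 1) (m : ℕ) (hm : 0 < m) (h : ¬ HasCharacterOfOrder u m) :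
    NoEquivariantMap 𝔾 :=
  case_order 𝔾 hu hne hm h

end Pool.Agent.Results.MP_b3a7e3_al.CharacterOrders
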