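import Mathlib
import Pool.Agent.Lib.MP_b3a7e3_al.Defs
import Pool.Agent.Lib.MP_b3a7e3_al.Cases

namespace Pool.Agent.Results.MP_b3a7e3_al.MatrixQuantumGroups

open Pool.Agent.MP_b3a7e3_al

universe u

theorem result (H HH HHH : Type u) [CStarAlgebra H] [CStarAlgebra HH] [CStarAlgebra HHH]
    (𝔾 : CompactQuantumGroup H HH HHH) (hH : ¬ Function.Surjective (algebraMap ℂ H))
    (h𝔾 : IsMatrixQuantumGroup 𝔾) : NoEquivariantMap 𝔾 :=
  case_matrix 𝔾 hH h𝔾

end Pool.Agent.Results.MP_b3a7e3_al.MatrixQuantumGroups
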