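import Mathlib
import Pool.Agent.Lib.MP_b3a7e3_al.Defs
import Pool.Agent.Lib.MP_b3a7e3_al.Tangent

namespace Pool.Agent.Results.MP_b3a7e3_al.NormalClosure

open Pool.Agent.MP_b3a7e3_al

universe u

/-- Let `G` be a group of unitary `n × n` matrices over `H` and `X ≠ {1}` a finite subset of `G`
which consists of corepresentations of `(H, Δ)`. Let `N` be the normal closure of `X` in `G`. If
every homomorphism `ψ : N → ℝ` which is bounded on the `G`-conjugacy class of each element of `X`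
vanishes on `X` (for instance, if `N` is perfect), then the conclusion of Q1 holds for `(H, Δ)`. -/
theorem result (H HH HHH : Type u) [CStarAlgebra H] [CStarAlgebra HH] [CStarAlgebra HHH]
    (𝔾 : CompactQuantumGroup H HH HHH) (n : ℕ)
    (G : Subgroup (unitary (Matrix (Fin n) (Fin n) H))) (X : Set G) (hfin : X.Finite)
    (hcorep : ∀ x ∈ X,
      IsCorep 𝔾 ((x : unitary (Matrix (Fin n) (Fin n) H)) : Matrix (Fin n) (Fin n) H))
    (hne : ∃ x ∈ X, x ≠ 1)
    (hom : ∀ ψ : G → ℝ,
      (∀ a ∈ Subgroup.normalClosure X, ∀ b ∈ Subgroup.normalClosure X,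
        ψ (a * b) = ψ a + ψ b) →
      (∀ x ∈ X, ∃ C : ℝ, ∀ g : G, |ψ (g * x * g⁻¹)| ≤ C) →
      ∀ x ∈ X, ψ x = 0) :
    NoEquivariantMap 𝔾 :=
  matrix_group_case 𝔾 G X hfin hcorep hne hom

end Pool.Agent.Results.MP_b3a7e3_al.NormalClosure
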