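import Mathlib
import Pool.Agent.Lib.MP_b3a7e3_al.TypeOneDefs
import Pool.Agent.Lib.MP_b3a7e3_al.TypeOneSpace

set_option autoImplicit false

namespace Pool.Agent.Results.MP_b3a7e3_al.TypeOneFalse

open Pool.Agent.MP_b3a7e3_al Pool.Agent.MP_b3a7e3_al.TypeOne

/-- There are a non-trivial compact quantum group `(H, Δ)`, a unital C*-algebra `A` with a
character and a free action `δ` of `(H, Δ)` on `A` with an equivariant *-homomorphism from `A` to
the equivariant join of `A` and `H`; moreover `A` and `H` are commutative. -/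
theorem result : ∃ (H HH HHH A AH AHH : Type) (_ : CStarAlgebra H) (_ : CStarAlgebra HH)
    (_ : CStarAlgebra HHH) (_ : CStarAlgebra A) (_ : CStarAlgebra AH) (_ : CStarAlgebra AHH)
    (𝔾 : CompactQuantumGroup H HH HHH) (P : MinTensor A H AH) (Q : MinTensor AH H AHH)
    (δ : A →⋆ₐ[ℂ] AH), 𝔾.NonTrivial ∧ IsAction 𝔾 P Q δ ∧ IsFree P δ ∧
    Nonempty (A →⋆ₐ[ℂ] ℂ) ∧ (∀ a b : A, a * b = b * a) ∧ (∀ g h : H, g * h = h * g) ∧
    ∃ Φ : A →⋆ₐ[ℂ] C(unitInterval, AH), IsTypeOneMap 𝔾 P Q δ Φ :=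
  ⟨C(grp, ℂ), C(grp × grp, ℂ), C((grp × grp) × grp, ℂ), C(XX, ℂ), C(XX × grp, ℂ),
    C((XX × grp) × grp, ℂ), inferInstance, inferInstance, inferInstance, inferInstance,
    inferInstance, inferInstance, classicalQG grp, commTensor XX grp, commTensor (XX × grp) grp,
    coact grp XX, nonTrivial_classicalQG grp, isAction_coact grp XX, isFree_coact grp XX free_XX,
    ⟨ContinuousMap.evalStarAlgHom ℂ ℂ (fun _ => ⟨(-1, 0), by
      rw [mem_sphere_zero_iff_norm, Prod.norm_mk]; simp⟩)⟩,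
    fun a b => mul_comm a b, fun g h => mul_comm g h, joinHom grp XX KK,
    isTypeOneMap_joinHom grp XX KK _ KK_equivariant KK_const⟩

end Pool.Agent.Results.MP_b3a7e3_al.TypeOneFalse
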